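import Pool.Agent.R852.BC.Bur
import Pool.Agent.R852.BC.Char
import Pool.Agent.H510R2.Div
import Pool.Agent.H374R2.Z.MP
import Pool.Agent.H38R2.CG.KR
import Pool.Agent.H38R2.CG.PV
import Pool.Agent.N71.BI.Stm

set_option autoImplicit false
set_option maxHeartbeats 4000000

/-! Burgess' bound for the Kronecker symbol of a fundamental discriminant (after
`Pool.Agent.R852.BC.Bur8`). -/

namespace Pool.Agent.N665.BI

open Finset Filter Pool.Agent.H471R4.BW Pool.Agent.R852.BC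

lemma KK_le (k0 : ℕ) (s : ℕ) (ε : ℝ) (hε : 0 < ε) : ∃ C : ℝ, 0 < C ∧ ∀ N : ℕ, 1 ≤ N →
    KK k0 N s ≤ C * (N : ℝ) ^ ε := by
  obtain ⟨k, hk⟩ : ∃ k : ℕ, (10 * s : ℝ) ≤ 2 ^ k := by
    obtain ⟨k, hk⟩ := pow_unbounded_of_one_lt (10 * s : ℝ) (by norm_num : (1 : ℝ) < 2)
    exact ⟨k, hk.le⟩
  set e : ℕ := k + (2 * s - 1) with he
  obtain ⟨C, hC0, hC⟩ := Pool.Agent.H510R2.divisor_bound (ε / (e + 1)) (by positivity)
  refine ⟨k0 * (2 * s * 2 ^ (2 * s - 1)) * (C ^ e) + 1, by positivity, fun N hN => ?_⟩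
  have hN1 : (1 : ℝ) ≤ N := by exact_mod_cast hN
  have hτ := hC N hN
  set τ : ℝ := (N.divisors.card : ℝ) with hτd
  have hτ0 : 0 ≤ τ := Nat.cast_nonneg _
  have h2 : (2 : ℝ) ^ N.primeFactors.card ≤ τ := by
    rw [hτd]
    exact_mod_cast Pool.Agent.H374R2.Z.MP.two_pow_le (by omega : N ≠ 0)
  have h3 : (10 * s : ℝ) ^ N.primeFactors.card ≤ τ ^ k := by
    calc (10 * s : ℝ) ^ N.primeFactors.card ≤ (2 ^ k) ^ N.primeFactors.card :=
          pow_le_pow_left₀ (by positivity) hk _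
      _ = ((2 : ℝ) ^ N.primeFactors.card) ^ k := by rw [← pow_mul, ← pow_mul, mul_comm]
      _ ≤ τ ^ k := pow_le_pow_left₀ (by positivity) h2 _
  have h4 : KK k0 N s ≤ k0 * (2 * s * 2 ^ (2 * s - 1)) * τ ^ e := by
    unfold KK
    rw [← hτd, he, pow_add, mul_pow 2 τ]
    calc (k0 : ℕ) * (10 * s : ℝ) ^ N.primeFactors.card * (2 * s * (2 ^ (2 * s - 1) * τ ^ (2 * s - 1)))
        ≤ (k0 : ℕ) * τ ^ k * (2 * s * (2 ^ (2 * s - 1) * τ ^ (2 * s - 1))) := by gcongr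
      _ = k0 * (2 * s * 2 ^ (2 * s - 1)) * (τ ^ k * τ ^ (2 * s - 1)) := by push_cast; ring
  have h5 : τ ^ e ≤ C ^ e * (N : ℝ) ^ ε := by
    calc τ ^ e ≤ (C * (N : ℝ) ^ (ε / (e + 1))) ^ e := pow_le_pow_left₀ hτ0 hτ _
      _ = C ^ e * (N : ℝ) ^ (ε / (e + 1) * e) := by
          rw [mul_pow, ← Real.rpow_natCast ((N : ℝ) ^ (ε / (e + 1))), ← Real.rpow_mul (by linarith)]
      _ ≤ C ^ e * (N : ℝ) ^ ε := by
          refine mul_le_mul_of_nonneg_left ?_ (by positivity)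
          apply Real.rpow_le_rpow_of_exponent_le hN1
          rw [div_mul_eq_mul_div, div_le_iff₀ (by positivity)]
          nlinarith
  have hNε : 0 ≤ (N : ℝ) ^ ε := Real.rpow_nonneg (by linarith) _
  calc KK k0 N s ≤ k0 * (2 * s * 2 ^ (2 * s - 1)) * τ ^ e := h4
    _ ≤ k0 * (2 * s * 2 ^ (2 * s - 1)) * (C ^ e * (N : ℝ) ^ ε) :=
        mul_le_mul_of_nonneg_left h5 (by positivity)
    _ ≤ _ := by nlinarith

/-- **Burgess' bound with a power saving** for the characters modulo `k0 N`, `N` odd and squarefree, which are the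
product of the Jacobi symbol modulo `N` and a character modulo `k0`. -/
theorem burq (k0 : ℕ) [NeZero k0] (η : ℝ) (hη : 0 < η) : ∃ δ : ℝ, 0 < δ ∧ ∀ᶠ q : ℕ in atTop, ∀ (N : ℕ) [NeZero N], q = k0 * N → Nat.Coprime k0 N →
    Odd N → Squarefree N → ∀ (ψ : DirichletCharacter ℂ k0) (X : ℕ), (q : ℝ) ^ (1 / 4 + η) ≤ X →
      (X : ℝ) ≤ (q : ℝ) ^ (1 / 2 + δ) → ‖shortSum (k0 * N) (chi k0 N ψ) X‖ ≤ (q : ℝ) ^ (-δ) * X := by
  obtain ⟨r, hr⟩ := exists_nat_ge (1 / (2 * η) + 1)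
  have hr1 : (1 : ℝ) ≤ r := by
    have : 0 < 1 / (2 * η) := by positivity
    linarith
  have hr1' : 1 ≤ r := by exact_mod_cast hr1
  have hrη : 1 / (2 * (r : ℝ)) ≤ η := by
    rw [div_le_iff₀ (by positivity)]
    have h1 : 1 / (2 * η) ≤ r := by linarith
    rw [div_le_iff₀ (by positivity)] at h1
    linarith
  set δ : ℝ := min (1 / 8) (min (η / (2 * (2 * r + 1))) (1 / (4 * (r : ℝ)))) with hδ
  have hδ0 : 0 < δ := by
    apply lt_min (by norm_num)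
    apply lt_min <;> positivity
  have hδ8 : δ ≤ 1 / 8 := min_le_left _ _
  have hδη : δ ≤ η / (2 * (2 * r + 1)) := (min_le_right _ _).trans (min_le_left _ _)
  have hδr : δ ≤ 1 / (4 * (r : ℝ)) := (min_le_right _ _).trans (min_le_right _ _)
  refine ⟨δ, hδ0, ?_⟩
  have tc : Tendsto (fun q : ℕ => (q : ℝ)) atTop atTop := tendsto_natCast_atTop_atTop
  have f1 : ∀ᶠ x : ℝ in atTop, 6400 ≤ x ^ (1 / 8 : ℝ) :=
    (tendsto_rpow_atTop (by norm_num : (0 : ℝ) < 1 / 8)).eventually_ge_atTop _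
  have f2 : ∀ᶠ x : ℝ in atTop, 256 * Real.log x ^ 2 ≤ x ^ (1 / 8 : ℝ) := by
    have h1 := (isLittleO_log_rpow_rpow_atTop (2 : ℝ) (show (0 : ℝ) < 1 / 8 by norm_num)).def
      (show (0 : ℝ) < 1 / 256 by norm_num)
    filter_upwards [h1, eventually_ge_atTop 1] with x hx hx1
    have h2 : 0 ≤ Real.log x := Real.log_nonneg hx1
    rw [Real.norm_eq_abs, Real.norm_eq_abs, abs_of_nonneg (by positivity), abs_of_nonneg (by positivity)] at hx
    have h3 : Real.log x ^ (2 : ℝ) = Real.log x ^ 2 := by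
      rw [← Real.rpow_natCast]; norm_num
    rw [h3] at hx
    linarith
  obtain ⟨CK, hCK0, hCK⟩ := KK_le k0 r (η / 4) (by positivity)
  have f3 : ∀ᶠ x : ℝ in atTop, 3 * ((r : ℝ) ^ (2 * r) + CK) * 128 * 2 ^ (2 * r) * Real.log x ≤ x ^ (η / 4) := by
    set c : ℝ := 3 * ((r : ℝ) ^ (2 * r) + CK) * 128 * 2 ^ (2 * r) with hc
    have hc0 : 0 < c := by positivity
    have h1 := (isLittleO_log_rpow_atTop (show (0 : ℝ) < η / 4 by positivity)).def
      (show (0 : ℝ) < 1 / c by positivity)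
    filter_upwards [h1, eventually_ge_atTop 1] with x hx hx1
    have h2 : 0 ≤ Real.log x := Real.log_nonneg hx1
    rw [Real.norm_eq_abs, Real.norm_eq_abs, abs_of_nonneg h2, abs_of_nonneg (by positivity)] at hx
    calc c * Real.log x ≤ c * (1 / c * x ^ (η / 4)) := by gcongr
      _ = x ^ (η / 4) := by field_simp
  filter_upwards [tc.eventually f1, tc.eventually f2, tc.eventually f3, eventually_ge_atTop 3]
    with q g1 g2 g3 hq3
  intro N _ hqN hco hodd hsq ψ X hX1 hX2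
  subst hqN
  have hN0 : N ≠ 0 := NeZero.ne N
  have : NeZero (k0 * N) := ⟨mul_ne_zero (NeZero.ne k0) hN0⟩
  set q : ℕ := k0 * N with hqdef
  have hq3r : (3 : ℝ) ≤ q := by exact_mod_cast hq3
  have hq0 : (0 : ℝ) < q := by linarith
  have hq1 : (1 : ℝ) ≤ q := by linarith
  have hdl : (q : ℝ) ^ (1 / 8 : ℝ) ≤ (q : ℝ) ^ (-δ) * (q : ℝ) ^ (1 / 4 : ℝ) := by
    rw [← Real.rpow_add hq0]
    exact Real.rpow_le_rpow_of_exponent_le hq1 (by linarith)
  have hdel1 : (q : ℝ) ^ (-δ) ≤ 1 := Real.rpow_le_one_of_one_le_of_nonpos hq1 (by linarith)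
  have hKN : KK k0 N r ≤ CK * (q : ℝ) ^ (η / 4) := by
    refine (hCK N (by omega)).trans ?_
    refine mul_le_mul_of_nonneg_left ?_ hCK0.le
    apply Real.rpow_le_rpow (Nat.cast_nonneg _) _ (by positivity)
    rw [hqdef]
    exact_mod_cast Nat.le_mul_of_pos_left N (Nat.pos_of_ne_zero (NeZero.ne k0))
  apply bur_core ((q : ℝ) ^ (-δ)) η (KK k0 N r)
    (Real.rpow_pos_of_pos hq0 _) hdel1 hη (KK_nonneg k0 N r) r hr1' hrη q hq3r
  · linarith
  · linarith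
  · have h1 : ((q : ℝ) ^ (-δ) / 2) ^ (2 * r) * (q : ℝ) ^ (-δ) = (q : ℝ) ^ (-((2 * r + 1) * δ)) / 2 ^ (2 * r) := by
      rw [div_pow, ← Real.rpow_natCast ((q : ℝ) ^ (-δ)), ← Real.rpow_mul hq0.le, div_mul_eq_mul_div, ← Real.rpow_add hq0]
      congr 2
      push_cast
      ring
    rw [h1]
    have h2 : (q : ℝ) ^ (η / 2) ≤ (q : ℝ) ^ (-((2 * r + 1) * δ)) * (q : ℝ) ^ η := by
      rw [← Real.rpow_add hq0]
      apply Real.rpow_le_rpow_of_exponent_le hq1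
      have h3 : (2 * (r : ℝ) + 1) * δ ≤ (2 * r + 1) * (η / (2 * (2 * r + 1))) := by gcongr
      have h4 : (2 * (r : ℝ) + 1) * (η / (2 * (2 * r + 1))) = η / 2 := by field_simp
      linarith
    rw [div_mul_eq_mul_div, le_div_iff₀ (by positivity)]
    have hlog0 : 0 ≤ Real.log q := Real.log_nonneg hq1
    have hqe : (1 : ℝ) ≤ (q : ℝ) ^ (η / 4) := Real.one_le_rpow hq1 (by positivity)
    have hr0 : 0 ≤ (r : ℝ) ^ (2 * r) := by positivity
    have hKK : (r : ℝ) ^ (2 * r) + KK k0 N r ≤ ((r : ℝ) ^ (2 * r) + CK) * (q : ℝ) ^ (η / 4) := by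
      nlinarith
    calc 3 * ((r : ℝ) ^ (2 * r) + KK k0 N r) * 128 * Real.log q * 2 ^ (2 * r)
        ≤ 3 * (((r : ℝ) ^ (2 * r) + CK) * (q : ℝ) ^ (η / 4)) * 128 * Real.log q * 2 ^ (2 * r) := by
          gcongr
      _ = (3 * ((r : ℝ) ^ (2 * r) + CK) * 128 * 2 ^ (2 * r) * Real.log q) * (q : ℝ) ^ (η / 4) := by ring
      _ ≤ (q : ℝ) ^ (η / 4) * (q : ℝ) ^ (η / 4) := by gcongr
      _ = (q : ℝ) ^ (η / 2) := by
          rw [← Real.rpow_add hq0]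
          congr 1
          ring
      _ ≤ _ := h2
  · intro B
    exact mom_chi k0 N r B hco hodd hsq ψ hr1'
  · exact hX1
  · calc (X : ℝ) ^ 2 ≤ ((q : ℝ) ^ (1 / 2 + δ)) ^ 2 := pow_le_pow_left₀ (by positivity) hX2 2
      _ = (q : ℝ) ^ (1 + 2 * δ) := by
          rw [← Real.rpow_natCast, ← Real.rpow_mul hq0.le]
          congr 1
          push_cast
          ring
      _ ≤ (q : ℝ) ^ (1 + 1 / (2 * (r : ℝ))) := by
          apply Real.rpow_le_rpow_of_exponent_le hq1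
          have h5 : 2 * (1 / (4 * (r : ℝ))) = 1 / (2 * (r : ℝ)) := by field_simp; ring
          linarith
      _ = q * (q : ℝ) ^ (1 / (2 * (r : ℝ))) := by rw [Real.rpow_add hq0, Real.rpow_one]



/-! ## The symbol -/

lemma abs_eq (f : ℕ → ℤ) (X : ℕ) :
    |∑ n ∈ Finset.Icc 1 X, (f n : ℝ)| = ‖∑ n ∈ Finset.Icc 1 X, (f n : ℂ)‖ := by
  rw [← Real.norm_eq_abs, ← Complex.norm_real]
  push_cast
  rfl

lemma symA (D : ℕ) [NeZero D] (h4 : D % 4 = 1) (n : ℕ) (hn : 1 ≤ n) :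
    chi 1 D 1 (n : ZMod (1 * D)) = (Pool.Agent.H38R2.CG.chi D n : ℂ) := by
  rw [chi_nat, jchar_apply, Pool.Agent.H38R2.CG.KRh.chi_one h4 hn]
  have h1 : (n : ZMod 1) = 1 := Subsingleton.elim _ _
  rw [h1, map_one, one_mul]

lemma symB (e N : ℕ) [NeZero N] (hN : Odd N) : ∃ ψ : DirichletCharacter ℂ 8, ∀ n : ℕ, 1 ≤ n →
    chi 8 N ψ (n : ZMod (8 * N)) =
      (Pool.Agent.H38R2.CG.chi ((4 * (2 ^ e * N) : ℕ) : ℤ) n : ℂ) := by
  set k : ℕ := if N % 4 = 3 then 1 else 0 with hk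
  refine ⟨psi (chi4' ^ k * ZMod.χ₈ ^ e), fun n hn => ?_⟩
  rw [chi_nat, jchar_apply, Pool.Agent.H38R2.CG.KRh.chi_four hn]
  unfold Pool.Agent.H38R2.CG.KRh.g4
  by_cases he : Even n
  · rw [if_pos he]
    have h1 : psi (chi4' ^ k * ZMod.χ₈ ^ e) (n : ZMod 8) = 0 := by
      apply MulChar.map_nonunit
      rw [ZMod.isUnit_iff_coprime]
      intro hc
      have h2 : Nat.Coprime n 2 := Nat.Coprime.coprime_dvd_right (by norm_num) hc
      rw [Nat.coprime_two_right] at h2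
      exact (Nat.not_even_iff_odd.2 h2) he
    rw [h1, zero_mul, Int.cast_zero]
  · rw [if_neg he]
    have ho : Odd n := Nat.not_even_iff_odd.1 he
    have hu : IsUnit (n : ZMod 8) := by
      rw [ZMod.isUnit_iff_coprime]
      have : Nat.Coprime n (2 ^ 3) := Nat.Coprime.pow_right 3 (Nat.coprime_two_right.mpr ho)
      simpa using this
    have p1 : ∀ (χ : MulChar (ZMod 8) ℤ) (j : ℕ), (χ ^ j) (n : ZMod 8) = χ (n : ZMod 8) ^ j := by
      intro χ j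
      induction j with
      | zero => rw [pow_zero, pow_zero, MulChar.one_apply hu]
      | succ j ih => rw [pow_succ, pow_succ, MulChar.mul_apply, ih]
    have e4 : (chi4' ^ k * ZMod.χ₈ ^ e : MulChar (ZMod 8) ℤ) (n : ZMod 8) =
        ZMod.χ₄ (n : ZMod 4) ^ k * ZMod.χ₈ (n : ZMod 8) ^ e := by
      rw [MulChar.mul_apply, p1, p1, chi4'_nat n ho]
    have e3 := recip N n hN ho
    have e5 : ZMod.χ₄ (n : ZMod 4) ^ k = if N % 4 = 3 then ZMod.χ₄ (n : ZMod 4) else 1 := by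
      rw [hk]
      split_ifs <;> simp
    have e2 : jacobiSym ((2 ^ e * N : ℕ) : ℤ) n =
        ZMod.χ₈ (n : ZMod 8) ^ e * jacobiSym (N : ℤ) n := by
      push_cast
      rw [jacobiSym.mul_left, jacobiSym.pow_left 2, jacobiSym.at_two ho]
    rw [psi_apply, e4, e2, e3, e5]
    push_cast
    ring

/-- a fundamental discriminant -/
lemma fund_cases (D : ℕ) (hD : Pool.Agent.H38R2.CG.IsFund D) :
    (D % 4 = 1 ∧ Squarefree D) ∨ ∃ e N : ℕ, e ≤ 1 ∧ Odd N ∧ Squarefree N ∧ D = 4 * (2 ^ e * N) := by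
  obtain ⟨hD1, h | ⟨m, hm, h4, hsq⟩⟩ := hD
  · exact Or.inl h
  · right
    rcases h4 with h4 | h4
    · refine ⟨1, m / 2, le_rfl, Nat.odd_iff.2 (by omega), ?_, by omega⟩
      exact hsq.squarefree_of_dvd ⟨2, by omega⟩
    · exact ⟨0, m, by norm_num, Nat.odd_iff.2 (by omega), hsq, by omega⟩

/-- Burgess in the range up to `D ^ (1 / 2 + δ)`. -/
theorem bur_mid (η : ℝ) (hη : 0 < η) : ∃ δ : ℝ, 0 < δ ∧ ∃ D₀ : ℕ, 1 ≤ D₀ ∧ ∀ D : ℕ, D₀ ≤ D →
    Pool.Agent.H38R2.CG.IsFund D → ∀ X : ℕ, (D : ℝ) ^ (1 / 4 + η) ≤ X →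
      (X : ℝ) ≤ (D : ℝ) ^ (1 / 2 + δ) →
      |∑ n ∈ Finset.Icc 1 X, (Pool.Agent.H38R2.CG.chi D n : ℝ)| ≤ (D : ℝ) ^ (-δ) * X := by
  obtain ⟨δ₁, hδ₁, h1⟩ := burq 1 (η / 2) (by positivity)
  obtain ⟨δ₂, hδ₂, h2⟩ := burq 8 (η / 2) (by positivity)
  obtain ⟨q₁, h1⟩ := eventually_atTop.1 h1
  obtain ⟨q₂, h2⟩ := eventually_atTop.1 h2
  have tc : Tendsto (fun q : ℕ => (q : ℝ)) atTop atTop := tendsto_natCast_atTop_atTop
  have h3 : ∀ᶠ D : ℕ in atTop, (2 : ℝ) ^ (1 / 4 + η / 2) ≤ (D : ℝ) ^ (η / 2) :=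
    tc.eventually ((tendsto_rpow_atTop (by positivity : (0 : ℝ) < η / 2)).eventually_ge_atTop _)
  obtain ⟨q₃, h3⟩ := eventually_atTop.1 h3
  refine ⟨min δ₁ δ₂, lt_min hδ₁ hδ₂, q₁ + q₂ + q₃ + 1, by omega, fun D hD0 hF X hX1 hX2 => ?_⟩
  have hDpos : 0 < D := by omega
  have hDr : (1 : ℝ) ≤ D := by exact_mod_cast hDpos
  have hDr0 : (0 : ℝ) < D := by linarith
  rw [abs_eq]
  rcases fund_cases D hF with ⟨h4, hsq⟩ | ⟨e, N, he, hodd, hsq, hDe⟩
  · haveI : NeZero D := ⟨by omega⟩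
    have hodd : Odd D := Nat.odd_iff.2 (by omega)
    have hb := h1 D (by omega) D (one_mul D).symm (Nat.coprime_one_left D) hodd hsq 1 X
      (le_trans (Real.rpow_le_rpow_of_exponent_le hDr (by linarith)) hX1)
      (hX2.trans (Real.rpow_le_rpow_of_exponent_le hDr (by linarith [min_le_left δ₁ δ₂])))
    have e1 : shortSum (1 * D) (chi 1 D 1) X =
        ∑ n ∈ Finset.Icc 1 X, (Pool.Agent.H38R2.CG.chi D n : ℂ) := by
      unfold shortSum
      exact Finset.sum_congr rfl fun n hn => symA D h4 n (Finset.mem_Icc.1 hn).1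
    rw [← e1]
    refine hb.trans (mul_le_mul_of_nonneg_right ?_ (Nat.cast_nonneg _))
    exact Real.rpow_le_rpow_of_exponent_le hDr (by linarith [min_le_left δ₁ δ₂])
  · have hN0 : N ≠ 0 := by rintro rfl; simp at hodd
    haveI : NeZero N := ⟨hN0⟩
    have hco : Nat.Coprime 8 N := by
      have : Nat.Coprime (2 ^ 3) N := Nat.Coprime.pow_left 3 (Nat.coprime_two_left.mpr hodd)
      simpa using this
    obtain ⟨ψ, hψ⟩ := symB e N hodd
    have hDq : D ≤ 8 * N ∧ 8 * N ≤ 2 * D := by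
      rcases (by omega : e = 0 ∨ e = 1) with rfl | rfl
      · rw [pow_zero, one_mul] at hDe; omega
      · rw [pow_one] at hDe; omega
    have hDq1 : (D : ℝ) ≤ ((8 * N : ℕ) : ℝ) := by exact_mod_cast hDq.1
    have hDq2 : ((8 * N : ℕ) : ℝ) ≤ 2 * D := by exact_mod_cast hDq.2
    have r1 : ((8 * N : ℕ) : ℝ) ^ (1 / 4 + η / 2) ≤ X := by
      refine le_trans ?_ hX1
      calc ((8 * N : ℕ) : ℝ) ^ (1 / 4 + η / 2) ≤ (2 * (D : ℝ)) ^ (1 / 4 + η / 2) :=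
            Real.rpow_le_rpow (Nat.cast_nonneg _) hDq2 (by positivity)
        _ = 2 ^ (1 / 4 + η / 2) * (D : ℝ) ^ (1 / 4 + η / 2) :=
            Real.mul_rpow (by norm_num) hDr0.le
        _ ≤ (D : ℝ) ^ (η / 2) * (D : ℝ) ^ (1 / 4 + η / 2) :=
            mul_le_mul_of_nonneg_right (h3 D (by omega)) (Real.rpow_nonneg hDr0.le _)
        _ = (D : ℝ) ^ (1 / 4 + η) := by
            rw [← Real.rpow_add hDr0]; congr 1; ring
    have r2 : (X : ℝ) ≤ ((8 * N : ℕ) : ℝ) ^ (1 / 2 + δ₂) := by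
      calc (X : ℝ) ≤ (D : ℝ) ^ (1 / 2 + min δ₁ δ₂) := hX2
        _ ≤ (D : ℝ) ^ (1 / 2 + δ₂) :=
            Real.rpow_le_rpow_of_exponent_le hDr (by linarith [min_le_right δ₁ δ₂])
        _ ≤ _ := Real.rpow_le_rpow hDr0.le hDq1 (by positivity)
    have hb := h2 (8 * N) (by omega) N rfl hco hodd hsq ψ X r1 r2
    have e1 : shortSum (8 * N) (chi 8 N ψ) X =
        ∑ n ∈ Finset.Icc 1 X, (Pool.Agent.H38R2.CG.chi D n : ℂ) := by
      unfold shortSum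
      refine Finset.sum_congr rfl fun n hn => ?_
      rw [hψ n (Finset.mem_Icc.1 hn).1, hDe]
    rw [← e1]
    refine hb.trans (mul_le_mul_of_nonneg_right ?_ (Nat.cast_nonneg _))
    calc ((8 * N : ℕ) : ℝ) ^ (-δ₂) ≤ (D : ℝ) ^ (-δ₂) :=
          Real.rpow_le_rpow_of_nonpos hDr0 hDq1 (by linarith)
      _ ≤ (D : ℝ) ^ (-min δ₁ δ₂) :=
          Real.rpow_le_rpow_of_exponent_le hDr (by linarith [min_le_right δ₁ δ₂])

/-- BUR. -/
theorem t_BUR : Pool.Agent.N71.BI.E_BUR := by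
  intro η hη
  obtain ⟨δ, hδ, D₀, hD₀, hmid⟩ := bur_mid η hη
  obtain ⟨C₂, hC₂, hPV⟩ := Pool.Agent.H38R2.CG.T_PV
  have hD₀r : (1 : ℝ) ≤ D₀ := by exact_mod_cast hD₀
  refine ⟨δ / 2, 1 + C₂ * (2 / δ) + (D₀ : ℝ) ^ (δ / 2), by positivity, by positivity,
    fun D hF X hX => ?_⟩
  have hD2 : 2 ≤ D := hF.1
  have hDr : (1 : ℝ) ≤ D := by exact_mod_cast (by omega : 1 ≤ D)
  have hDr0 : (0 : ℝ) < D := by linarith
  have hX0 : (0 : ℝ) ≤ X := Nat.cast_nonneg _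
  have hp : 0 ≤ (D : ℝ) ^ (-(δ / 2)) * X := by positivity
  have hC2δ : 0 ≤ C₂ * (2 / δ) := by positivity
  have hDδ : 0 ≤ (D₀ : ℝ) ^ (δ / 2) := by positivity
  obtain ⟨χ, hχ1, hχ⟩ := Pool.Agent.H38R2.CG.T_KR D hF
  have key : |∑ n ∈ Finset.Icc 1 X, (Pool.Agent.H38R2.CG.chi D n : ℝ)| ≤
      1 * ((D : ℝ) ^ (-(δ / 2)) * X) ∨
      |∑ n ∈ Finset.Icc 1 X, (Pool.Agent.H38R2.CG.chi D n : ℝ)| ≤
      C₂ * (2 / δ) * ((D : ℝ) ^ (-(δ / 2)) * X) ∨
      |∑ n ∈ Finset.Icc 1 X, (Pool.Agent.H38R2.CG.chi D n : ℝ)| ≤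
      (D₀ : ℝ) ^ (δ / 2) * ((D : ℝ) ^ (-(δ / 2)) * X) := by
    by_cases h0 : D₀ ≤ D
    · by_cases h1 : (X : ℝ) ≤ (D : ℝ) ^ (1 / 2 + δ)
      · left
        rw [one_mul]
        refine (hmid D h0 hF X hX h1).trans (mul_le_mul_of_nonneg_right ?_ hX0)
        exact Real.rpow_le_rpow_of_exponent_le hDr (by linarith)
      · right; left
        push Not at h1
        have h2 := hPV D χ hD2 hχ1 0 X
        have h3 : ∑ n ∈ Finset.Ioc 0 X, χ (n : ZMod D) =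
            ∑ n ∈ Finset.Icc 1 X, (Pool.Agent.H38R2.CG.chi D n : ℂ) := by
          have : Finset.Ioc 0 X = Finset.Icc 1 X := by
            ext x; simp [Finset.mem_Icc, Finset.mem_Ioc, Nat.succ_le_iff]
          rw [this]
          exact Finset.sum_congr rfl fun n hn => hχ n (Finset.mem_Icc.1 hn).1
        rw [abs_eq, ← h3]
        refine h2.trans ?_
        have h4 : Real.log D ≤ (D : ℝ) ^ (δ / 2) / (δ / 2) :=
          Real.log_le_rpow_div hDr0.le (by positivity)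
        calc C₂ * √(D : ℝ) * Real.log D ≤ C₂ * √(D : ℝ) * ((D : ℝ) ^ (δ / 2) / (δ / 2)) := by
              gcongr
          _ = C₂ * (2 / δ) * ((D : ℝ) ^ (1 / 2 : ℝ) * (D : ℝ) ^ (δ / 2)) := by
              rw [Real.sqrt_eq_rpow]
              field_simp
          _ = C₂ * (2 / δ) * ((D : ℝ) ^ (-(δ / 2)) * (D : ℝ) ^ (1 / 2 + δ)) := by
              rw [← Real.rpow_add hDr0, ← Real.rpow_add hDr0]
              congr 2
              ring
          _ ≤ C₂ * (2 / δ) * ((D : ℝ) ^ (-(δ / 2)) * X) := by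
              gcongr
    · right; right
      push Not at h0
      have h2 : |∑ n ∈ Finset.Icc 1 X, (Pool.Agent.H38R2.CG.chi D n : ℝ)| ≤ X := by
        rw [abs_eq]
        refine (norm_sum_le _ _).trans ?_
        calc ∑ n ∈ Finset.Icc 1 X, ‖(Pool.Agent.H38R2.CG.chi D n : ℂ)‖
            ≤ ∑ n ∈ Finset.Icc 1 X, (1 : ℝ) := by
              refine Finset.sum_le_sum fun n hn => ?_
              rw [← hχ n (Finset.mem_Icc.1 hn).1]
              exact χ.norm_le_one _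
          _ = X := by simp
      refine h2.trans ?_
      have h3 : (D : ℝ) ≤ D₀ := by exact_mod_cast h0.le
      calc (X : ℝ) = (D : ℝ) ^ (δ / 2) * ((D : ℝ) ^ (-(δ / 2)) * X) := by
            rw [← mul_assoc, ← Real.rpow_add hDr0]
            simp
        _ ≤ (D₀ : ℝ) ^ (δ / 2) * ((D : ℝ) ^ (-(δ / 2)) * X) :=
            mul_le_mul_of_nonneg_right (Real.rpow_le_rpow hDr0.le h3 (by positivity)) hp
  have hfin : (1 + C₂ * (2 / δ) + (D₀ : ℝ) ^ (δ / 2)) * (D : ℝ) ^ (-(δ / 2)) * X =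
      1 * ((D : ℝ) ^ (-(δ / 2)) * X) + C₂ * (2 / δ) * ((D : ℝ) ^ (-(δ / 2)) * X) +
        (D₀ : ℝ) ^ (δ / 2) * ((D : ℝ) ^ (-(δ / 2)) * X) := by ring
  rw [hfin]
  have q1 : 0 ≤ 1 * ((D : ℝ) ^ (-(δ / 2)) * X) := by positivity
  have q2 : 0 ≤ C₂ * (2 / δ) * ((D : ℝ) ^ (-(δ / 2)) * X) := by positivity
  have q3 : 0 ≤ (D₀ : ℝ) ^ (δ / 2) * ((D : ℝ) ^ (-(δ / 2)) * X) := by positivity
  rcases key with h | h | h <;> linarith

end Pool.Agent.N665.BI
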